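import Mathlib

/-!
A non-archimedean lattice-ordered group with a unique addition.

`K` is a linearly ordered field, `R` an additive subgroup of `K` which is discrete
(nonzero elements have absolute value at least one), cofinal and contains `1`, and `I` is an
uncountable index set.  `GS R I` is the group of functions `(I → K) → K` generated, as a
lattice-ordered group, by the constants and the functions `p ↦ r * p i` with `r ∈ R`.
-/

set_option autoImplicit false
set_option linter.unusedSectionVars false

namespace Pool.Agent.H89.UniqueAdd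

open Function

variable {K : Type} [Field K] [LinearOrder K] [IsStrictOrderedRing K]
variable {R : AddSubgroup K} {I : Type}

/-- Membership in the function lattice-group generated by constants and `r * x_i`, `r ∈ R`. -/
inductive InG (R : AddSubgroup K) (I : Type) : ((I → K) → K) → Prop
  | const (c : K) : InG R I (fun _ => c)
  | lin (r : K) (hr : r ∈ R) (i : I) : InG R I (fun p => r * p i)
  | add (f g : (I → K) → K) : InG R I f → InG R I g → InG R I (f + g)
  | neg (f : (I → K) → K) : InG R I f → InG R I (-f)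
  | sup (f g : (I → K) → K) : InG R I f → InG R I g → InG R I (f ⊔ g)

theorem InG.inf {f g : (I → K) → K} (hf : InG R I f) (hg : InG R I g) : InG R I (f ⊓ g) := by
  have h : f ⊓ g = -((-f) ⊔ (-g)) := by
    funext p
    simp [Pi.inf_apply, Pi.sup_apply, max_neg_neg]
  rw [h]
  exact InG.neg _ (InG.sup _ _ (InG.neg _ hf) (InG.neg _ hg))

theorem InG.sub {f g : (I → K) → K} (hf : InG R I f) (hg : InG R I g) : InG R I (f - g) := by
  rw [sub_eq_add_neg]
  exact InG.add _ _ hf (InG.neg _ hg)

/-- Finite dependence together with continuity. -/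
theorem InG.cont {f : (I → K) → K} (hf : InG R I f) :
    ∃ F : Finset I, ∀ p : I → K, ∀ ε : K, 0 < ε → ∃ δ : K, 0 < δ ∧
      ∀ q : I → K, (∀ i ∈ F, |q i - p i| < δ) → |f q - f p| < ε := by
  classical
  induction hf with
  | const c => exact ⟨∅, fun p ε hε => ⟨1, one_pos, fun q _ => by simpa using hε⟩⟩
  | lin r hr i =>
    refine ⟨{i}, fun p ε hε => ⟨ε / (|r| + 1), by positivity, fun q hq => ?_⟩⟩
    have h1 := hq i (by simp)
    have h2 : (0 : K) < |r| + 1 := by positivity
    have h3 : |q i - p i| * (|r| + 1) < ε := by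
      rwa [lt_div_iff₀ h2] at h1
    calc |r * q i - r * p i| = |q i - p i| * |r| := by rw [← mul_sub, abs_mul, mul_comm]
      _ ≤ |q i - p i| * (|r| + 1) := by
          apply mul_le_mul_of_nonneg_left _ (abs_nonneg _); linarith
      _ < ε := h3
  | add f g _ _ ihf ihg =>
    obtain ⟨F, hF⟩ := ihf
    obtain ⟨G, hG⟩ := ihg
    refine ⟨F ∪ G, fun p ε hε => ?_⟩
    obtain ⟨δ₁, h1, h1'⟩ := hF p (ε / 2) (by positivity)
    obtain ⟨δ₂, h2, h2'⟩ := hG p (ε / 2) (by positivity)
    refine ⟨min δ₁ δ₂, lt_min h1 h2, fun q hq => ?_⟩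
    have a1 := h1' q (fun i hi => lt_of_lt_of_le (hq i (by simp [hi])) (min_le_left _ _))
    have a2 := h2' q (fun i hi => lt_of_lt_of_le (hq i (by simp [hi])) (min_le_right _ _))
    have : (f + g) q - (f + g) p = (f q - f p) + (g q - g p) := by
      simp only [Pi.add_apply]; ring
    rw [this]
    calc |f q - f p + (g q - g p)| ≤ |f q - f p| + |g q - g p| := abs_add_le _ _
      _ < ε / 2 + ε / 2 := add_lt_add a1 a2
      _ = ε := by ring
  | neg f _ ihf =>
    obtain ⟨F, hF⟩ := ihf
    refine ⟨F, fun p ε hε => ?_⟩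
    obtain ⟨δ, h1, h2⟩ := hF p ε hε
    refine ⟨δ, h1, fun q hq => ?_⟩
    have := h2 q hq
    have e : (-f) q - (-f) p = -(f q - f p) := by simp only [Pi.neg_apply]; ring
    rw [e, abs_neg]
    exact this
  | sup f g _ _ ihf ihg =>
    obtain ⟨F, hF⟩ := ihf
    obtain ⟨G, hG⟩ := ihg
    refine ⟨F ∪ G, fun p ε hε => ?_⟩
    obtain ⟨δ₁, h1, h1'⟩ := hF p ε hε
    obtain ⟨δ₂, h2, h2'⟩ := hG p ε hε
    refine ⟨min δ₁ δ₂, lt_min h1 h2, fun q hq => ?_⟩
    have a1 := h1' q (fun i hi => lt_of_lt_of_le (hq i (by simp [hi])) (min_le_left _ _))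
    have a2 := h2' q (fun i hi => lt_of_lt_of_le (hq i (by simp [hi])) (min_le_right _ _))
    calc |(f ⊔ g) q - (f ⊔ g) p| = |max (f q) (g q) - max (f p) (g p)| := rfl
      _ ≤ max |f q - f p| |g q - g p| := abs_max_sub_max_le_max _ _ _ _
      _ < ε := max_lt a1 a2

/-- Piecewise affine functions of one variable, with finitely many pieces and slopes in `R`. -/
def PWA (R : AddSubgroup K) (f : K → K) : Prop :=
  ∃ S : Finset K, ∃ A : Finset (K × K), (∀ a ∈ A, a.2 ∈ R) ∧
    ∀ a b : K, a ≤ b → (∀ s ∈ S, ¬ (a < s ∧ s < b)) →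
      ∃ c ∈ A, ∀ x, a ≤ x → x ≤ b → f x = c.1 + c.2 * x

theorem PWA.const (c : K) : PWA R (fun _ => c) := by
  refine ⟨∅, {(c, 0)}, ?_, fun a b _ _ => ⟨(c, 0), by simp, fun x _ _ => by simp⟩⟩
  intro a ha
  rw [Finset.mem_singleton] at ha
  subst ha
  exact R.zero_mem

theorem PWA.lin (r : K) (hr : r ∈ R) : PWA R (fun x => r * x) := by
  refine ⟨∅, {(0, r)}, ?_, fun a b _ _ => ⟨(0, r), by simp, fun x _ _ => by simp⟩⟩
  intro a ha
  rw [Finset.mem_singleton] at ha
  subst ha
  exact hr

theorem PWA.add {f g : K → K} (hf : PWA R f) (hg : PWA R g) : PWA R (fun x => f x + g x) := by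
  classical
  obtain ⟨S, A, hA, h⟩ := hf
  obtain ⟨T, B, hB, k⟩ := hg
  refine ⟨S ∪ T, (A ×ˢ B).image (fun ab => (ab.1.1 + ab.2.1, ab.1.2 + ab.2.2)), ?_, ?_⟩
  · intro c hc
    simp only [Finset.mem_image, Finset.mem_product] at hc
    obtain ⟨ab, ⟨h1, h2⟩, rfl⟩ := hc
    exact R.add_mem (hA _ h1) (hB _ h2)
  · intro a b hab hS
    obtain ⟨c, hc, hc'⟩ := h a b hab (fun s hs => hS s (by simp [hs]))
    obtain ⟨d, hd, hd'⟩ := k a b hab (fun s hs => hS s (by simp [hs]))
    refine ⟨(c.1 + d.1, c.2 + d.2), ?_, fun x h1 h2 => ?_⟩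
    · simp only [Finset.mem_image, Finset.mem_product]
      exact ⟨(c, d), ⟨hc, hd⟩, rfl⟩
    · simp only
      rw [hc' x h1 h2, hd' x h1 h2]; ring

theorem PWA.neg {f : K → K} (hf : PWA R f) : PWA R (fun x => - f x) := by
  classical
  obtain ⟨S, A, hA, h⟩ := hf
  refine ⟨S, A.image (fun a => (-a.1, -a.2)), ?_, ?_⟩
  · intro c hc
    simp only [Finset.mem_image] at hc
    obtain ⟨a, h1, rfl⟩ := hc
    exact R.neg_mem (hA _ h1)
  · intro a b hab hS
    obtain ⟨c, hc, hc'⟩ := h a b hab hS
    refine ⟨(-c.1, -c.2), ?_, fun x h1 h2 => ?_⟩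
    · simp only [Finset.mem_image]
      exact ⟨c, hc, rfl⟩
    · simp only
      rw [hc' x h1 h2]; ring

/-- An affine function without a zero strictly inside `[a,b]` has a constant weak sign there. -/
theorem affine_sign {c r a b : K} (_hab : a ≤ b) (h : r ≠ 0 → ¬ (a < -c / r ∧ -c / r < b)) :
    (∀ x, a ≤ x → x ≤ b → c + r * x ≤ 0) ∨ (∀ x, a ≤ x → x ≤ b → 0 ≤ c + r * x) := by
  rcases eq_or_ne r 0 with hr | hr
  · subst hr
    rcases le_total c 0 with hc | hc
    · left; intro x _ _; simpa using hc
    · right; intro x _ _; simpa using hc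
  · have h' := h hr
    have hz : c + r * (-c / r) = 0 := by field_simp; ring
    set z := -c / r with hzdef
    have key : ∀ x, c + r * x = r * (x - z) := by
      intro x
      have : c = - (r * z) := by linarith
      rw [this]; ring
    have hcase : z ≤ a ∨ b ≤ z := by
      by_contra hcon
      push Not at hcon
      exact h' ⟨hcon.1, hcon.2⟩
    rcases lt_or_gt_of_ne hr with hneg | hpos
    · rcases hcase with hz1 | hz1
      · left; intro x hx _
        rw [key]
        exact mul_nonpos_of_nonpos_of_nonneg hneg.le (by linarith)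
      · right; intro x _ hx
        rw [key]
        exact mul_nonneg_of_nonpos_of_nonpos hneg.le (by linarith)
    · rcases hcase with hz1 | hz1
      · right; intro x hx _
        rw [key]
        exact mul_nonneg hpos.le (by linarith)
      · left; intro x _ hx
        rw [key]
        exact mul_nonpos_of_nonneg_of_nonpos hpos.le (by linarith)

theorem PWA.pos {f : K → K} (hf : PWA R f) : PWA R (fun x => max (f x) 0) := by
  classical
  obtain ⟨S, A, hA, h⟩ := hf
  refine ⟨S ∪ A.image (fun a => -a.1 / a.2), insert (0, 0) A, ?_, ?_⟩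
  · intro c hc
    rw [Finset.mem_insert] at hc
    rcases hc with rfl | hc
    · exact R.zero_mem
    · exact hA _ hc
  · intro a b hab hS
    obtain ⟨c, hc, hc'⟩ := h a b hab (fun s hs => hS s (by simp [hs]))
    have h0 := hS (-c.1 / c.2) (by
      rw [Finset.mem_union]; right
      exact Finset.mem_image.2 ⟨c, hc, rfl⟩)
    rcases affine_sign (c := c.1) (r := c.2) hab (fun _ => h0) with h1 | h1
    · refine ⟨(0, 0), by simp, fun x hx hx' => ?_⟩
      have := h1 x hx hx'
      simp only [hc' x hx hx', max_eq_right this]; ring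
    · refine ⟨c, by simp [hc], fun x hx hx' => ?_⟩
      have := h1 x hx hx'
      simp only [hc' x hx hx', max_eq_left this]

theorem PWA.sup {f g : K → K} (hf : PWA R f) (hg : PWA R g) :
    PWA R (fun x => max (f x) (g x)) := by
  have h := ((hf.add hg.neg).pos).add hg
  have e : (fun x => max (f x) (g x)) = (fun x => max (f x + - g x) 0 + g x) := by
    funext x
    rcases le_total (f x) (g x) with h1 | h1
    · rw [max_eq_right h1, max_eq_right (by linarith)]; ring
    · rw [max_eq_left h1, max_eq_left (by linarith)]; ring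
  rw [e]; exact h

/-- Restricting a member of `G` to a coordinate line gives a piecewise affine function. -/
theorem InG.pwa [DecidableEq I] {f : (I → K) → K} (hf : InG R I f) (p : I → K) (i : I) :
    PWA R (fun u => f (update p i u)) := by
  induction hf with
  | const c => exact PWA.const c
  | lin r hr k =>
    by_cases hk : k = i
    · subst hk
      simpa using PWA.lin (R := R) r hr
    · have : (fun u => r * update p i u k) = (fun _ => r * p k) := by
        funext u
        rw [update_of_ne hk]
      rw [this]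
      exact PWA.const _
  | add f g _ _ ihf ihg => exact ihf.add ihg
  | neg f _ ihf => exact ihf.neg
  | sup f g _ _ ihf ihg => exact ihf.sup ihg

/-- Two mutually inverse monotone piecewise affine functions with slopes in the discrete group `R`
are translations. -/
theorem slope_one (hR1 : ∀ r ∈ R, r ≠ 0 → 1 ≤ |r|) {P Q : K → K} (hP : PWA R P) (hQ : PWA R Q)
    (hmono : ∀ u v, u ≤ v → P u ≤ P v) (hQP : ∀ u, Q (P u) = u) (hPQ : ∀ u, P (Q u) = u) :
    ∀ u v, P v - P u = v - u := by
  classical
  have hinj : Function.Injective P := fun u v h => by rw [← hQP u, ← hQP v, h]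
  have hstrict : ∀ u v, u < v → P u < P v := fun u v h =>
    lt_of_le_of_ne (hmono u v h.le) (fun e => h.ne (hinj e))
  have hstrict' : ∀ u v, P u < P v → u < v := by
    intro u v h
    by_contra hcon
    push Not at hcon
    exact absurd (hmono _ _ hcon) (not_le.2 h)
  obtain ⟨S, A, hA, h⟩ := hP
  obtain ⟨T, B, hB, k⟩ := hQ
  -- free intervals
  have hfree : ∀ a b, a ≤ b → (∀ s ∈ S ∪ T.image Q, ¬ (a < s ∧ s < b)) → P b - P a = b - a := by
    intro a b hab hS
    rcases eq_or_lt_of_le hab with rfl | hlt
    · simp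
    obtain ⟨c, hc, hc'⟩ := h a b hab (fun s hs => hS s (by simp [hs]))
    obtain ⟨d, hd, hd'⟩ := k (P a) (P b) (hmono _ _ hab) (by
      intro t ht hcon
      have hm : Q t ∈ S ∪ T.image Q := by
        rw [Finset.mem_union]; right
        exact Finset.mem_image.2 ⟨t, ht, rfl⟩
      refine hS _ hm ⟨hstrict' _ _ ?_, hstrict' _ _ ?_⟩
      · rw [hPQ]; exact hcon.1
      · rw [hPQ]; exact hcon.2)
    have e1 : P a = c.1 + c.2 * a := hc' a le_rfl hab
    have e2 : P b = c.1 + c.2 * b := hc' b hab le_rfl
    have e3 : a = d.1 + d.2 * P a := by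
      have := hd' (P a) le_rfl (hmono _ _ hab)
      rw [hQP] at this; exact this
    have e4 : b = d.1 + d.2 * P b := by
      have := hd' (P b) (hmono _ _ hab) le_rfl
      rw [hQP] at this; exact this
    have hPab : P b - P a = c.2 * (b - a) := by rw [e1, e2]; ring
    have hba : b - a = d.2 * (P b - P a) := by
      have : b - a = (d.1 + d.2 * P b) - (d.1 + d.2 * P a) := by rw [← e3, ← e4]
      rw [this]; ring
    have hb0 : 0 < b - a := sub_pos.2 hlt
    have hP0 : 0 < P b - P a := sub_pos.2 (hstrict _ _ hlt)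
    have hc0 : 0 < c.2 := by
      by_contra hcon
      push Not at hcon
      have : c.2 * (b - a) ≤ 0 := mul_nonpos_of_nonpos_of_nonneg hcon hb0.le
      linarith
    have hd0 : 0 < d.2 := by
      by_contra hcon
      push Not at hcon
      have : d.2 * (P b - P a) ≤ 0 := mul_nonpos_of_nonpos_of_nonneg hcon hP0.le
      linarith
    have hc1 : 1 ≤ c.2 := by
      have := hR1 _ (hA c hc) hc0.ne'
      rwa [abs_of_pos hc0] at this
    have hd1 : 1 ≤ d.2 := by
      have := hR1 _ (hB d hd) hd0.ne'
      rwa [abs_of_pos hd0] at this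
    have h1 : b - a ≤ P b - P a := by
      rw [hPab]; nlinarith
    have h2 : P b - P a ≤ b - a := by
      nlinarith
    linarith
  -- induction on the number of break points
  have hind : ∀ n : ℕ, ∀ a b, a ≤ b →
      ((S ∪ T.image Q).filter (fun s => a < s ∧ s < b)).card ≤ n → P b - P a = b - a := by
    intro n
    induction n with
    | zero =>
      intro a b hab hcard
      apply hfree a b hab
      intro s hs hcon
      have : s ∈ (S ∪ T.image Q).filter (fun s => a < s ∧ s < b) := Finset.mem_filter.2 ⟨hs, hcon⟩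
      rw [Nat.le_zero, Finset.card_eq_zero] at hcard
      rw [hcard] at this
      simp at this
    | succ n ih =>
      intro a b hab hcard
      by_cases hne : ((S ∪ T.image Q).filter (fun s => a < s ∧ s < b)).Nonempty
      · obtain ⟨s, hs⟩ := hne
        have hs' := (Finset.mem_filter.1 hs).2
        have c1 : ((S ∪ T.image Q).filter (fun x => a < x ∧ x < s)).card ≤ n := by
          have : ((S ∪ T.image Q).filter (fun x => a < x ∧ x < s)) ⊂
              ((S ∪ T.image Q).filter (fun x => a < x ∧ x < b)) := by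
            rw [Finset.ssubset_iff_of_subset]
            · exact ⟨s, hs, fun hcon => lt_irrefl _ (Finset.mem_filter.1 hcon).2.2⟩
            · intro x hx
              rw [Finset.mem_filter] at hx ⊢
              exact ⟨hx.1, hx.2.1, hx.2.2.trans hs'.2⟩
          have := Finset.card_lt_card this
          omega
        have c2 : ((S ∪ T.image Q).filter (fun x => s < x ∧ x < b)).card ≤ n := by
          have : ((S ∪ T.image Q).filter (fun x => s < x ∧ x < b)) ⊂
              ((S ∪ T.image Q).filter (fun x => a < x ∧ x < b)) := by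
            rw [Finset.ssubset_iff_of_subset]
            · exact ⟨s, hs, fun hcon => lt_irrefl _ (Finset.mem_filter.1 hcon).2.1⟩
            · intro x hx
              rw [Finset.mem_filter] at hx ⊢
              exact ⟨hx.1, hs'.1.trans hx.2.1, hx.2.2⟩
          have := Finset.card_lt_card this
          omega
        have i1 := ih a s hs'.1.le c1
        have i2 := ih s b hs'.2.le c2
        linarith
      · apply ih a b hab
        rw [Finset.not_nonempty_iff_eq_empty] at hne
        rw [hne]; simp
  intro u v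
  rcases le_total u v with h1 | h1
  · exact hind _ u v h1 le_rfl
  · have := hind _ v u h1 le_rfl
    linarith

/-- The lattice-ordered group, as an additive group. -/
def GS (R : AddSubgroup K) (I : Type) : AddSubgroup ((I → K) → K) where
  carrier := {f | InG R I f}
  add_mem' := fun hf hg => InG.add _ _ hf hg
  zero_mem' := InG.const 0
  neg_mem' := fun hf => InG.neg _ hf

instance instLatticeGS : Lattice (GS R I) :=
  Subtype.lattice (fun _ _ hf hg => InG.sup _ _ hf hg) (fun _ _ hf hg => InG.inf hf hg)

theorem inf_apply (f g : GS R I) (p : I → K) : (f ⊓ g).1 p = min (f.1 p) (g.1 p) := rfl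

theorem sup_apply (f g : GS R I) (p : I → K) : (f ⊔ g).1 p = max (f.1 p) (g.1 p) := rfl

theorem le_iff (f g : GS R I) : f ≤ g ↔ ∀ p, f.1 p ≤ g.1 p := Iff.rfl

theorem add_apply (f g : GS R I) (p : I → K) : (f + g).1 p = f.1 p + g.1 p := rfl

theorem neg_apply (f : GS R I) (p : I → K) : (-f).1 p = - f.1 p := rfl

theorem zero_apply (p : I → K) : (0 : GS R I).1 p = 0 := rfl

/-- Spikes. -/
theorem spike (hR2 : ∀ x : K, ∃ r ∈ R, x ≤ r) (p : I → K) (F : Finset I) (δ : K) (hδ : 0 < δ)
    (h : K) : ∃ s : (I → K) → K, InG R I s ∧ h ≤ s p ∧ (∀ q, 0 ≤ s q) ∧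
      ∀ q, (¬ ∀ i ∈ F, |q i - p i| < δ) → s q = 0 := by
  classical
  obtain ⟨r, hr, hr'⟩ := hR2 (max h 0 / δ)
  have hr0 : 0 ≤ r := le_trans (div_nonneg (le_max_right _ _) hδ.le) hr'
  have hrδ : max h 0 ≤ r * δ := by rwa [div_le_iff₀ hδ] at hr'
  have hsum : InG R I (fun q => ∑ i ∈ F, r * |q i - p i|) := by
    induction F using Finset.induction_on with
    | empty => simpa using InG.const (R := R) (I := I) 0
    | insert a F ha ih =>
      have e : (fun q : I → K => ∑ i ∈ insert a F, r * |q i - p i|) =
          (((fun q : I → K => r * q a) - (fun _ => r * p a)) ⊔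
            (-((fun q : I → K => r * q a) - (fun _ => r * p a)))) +
          (fun q : I → K => ∑ i ∈ F, r * |q i - p i|) := by
        funext q
        rw [Finset.sum_insert ha]
        have : r * |q a - p a| = max (r * q a - r * p a) (-(r * q a - r * p a)) := by
          rw [← abs_of_nonneg hr0, ← abs_mul, abs_of_nonneg hr0, mul_sub]
          rfl
        rw [this]
        rfl
      rw [e]
      have h1 : InG R I ((fun q : I → K => r * q a) - (fun _ => r * p a)) :=
        InG.sub (InG.lin r hr a) (InG.const _)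
      exact InG.add _ _ (InG.sup _ _ h1 (InG.neg _ h1)) ih
  refine ⟨((fun _ => max h 0) - (fun q => ∑ i ∈ F, r * |q i - p i|)) ⊔ (fun _ => 0),
    InG.sup _ _ (InG.sub (InG.const _) hsum) (InG.const _), ?_, ?_, ?_⟩
  · simp [Pi.sup_apply]
  · intro q
    exact le_max_right _ _
  · intro q hq
    push Not at hq
    obtain ⟨i, hi, hi'⟩ := hq
    have h1 : r * δ ≤ ∑ i ∈ F, r * |q i - p i| := by
      calc r * δ ≤ r * |q i - p i| := mul_le_mul_of_nonneg_left hi' hr0
        _ ≤ ∑ i ∈ F, r * |q i - p i| :=
          Finset.single_le_sum (f := fun i => r * |q i - p i|)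
            (fun j _ => mul_nonneg hr0 (abs_nonneg _)) hi
    have h2 : max h 0 - ∑ i ∈ F, r * |q i - p i| ≤ 0 := by linarith
    exact max_eq_right h2

theorem nbhd (f g : GS R I) (p : I → K) (h : f.1 p < g.1 p) :
    ∃ F : Finset I, ∃ δ : K, 0 < δ ∧ ∀ q : I → K, (∀ i ∈ F, |q i - p i| < δ) → f.1 q < g.1 q := by
  obtain ⟨F, hF⟩ := (InG.sub g.2 f.2).cont
  obtain ⟨δ, h1, h2⟩ := hF p (g.1 p - f.1 p) (sub_pos.2 h)
  refine ⟨F, δ, h1, fun q hq => ?_⟩
  have := h2 q hq
  rw [abs_lt] at this
  simp only [Pi.sub_apply] at this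
  linarith [this.1]

/-- An order automorphism above the identity never reverses strict inequalities at a point. -/
theorem claim1 (hR2 : ∀ x : K, ∃ r ∈ R, x ≤ r) (L : GS R I ≃o GS R I) (hL : ∀ f, f ≤ L f)
    (f g : GS R I) (p : I → K) (h : f.1 p < g.1 p) : (L f).1 p ≤ (L g).1 p := by
  by_contra hcon
  push Not at hcon
  obtain ⟨F, δ, hδ, hW⟩ := nbhd f g p h
  obtain ⟨s, hs, hs1, hs2, hs3⟩ := spike hR2 p F δ hδ ((L (f ⊓ g)).1 p - (f ⊓ g).1 p + 1)
  set e := f ⊓ g with he
  set k : GS R I := e + ⟨s, hs⟩ with hk
  have hkf : k ⊓ f = e := by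
    apply Subtype.ext
    funext q
    rw [inf_apply, he, inf_apply]
    have hkq : k.1 q = min (f.1 q) (g.1 q) + s q := rfl
    rw [hkq]
    by_cases hq : ∀ i ∈ F, |q i - p i| < δ
    · have h1 := hW q hq
      rw [min_eq_left h1.le]
      exact min_eq_right (by linarith [hs2 q])
    · rw [hs3 q hq, add_zero]
      exact min_eq_left (min_le_left _ _)
  have h1 : L k ⊓ L f = L e := by rw [← map_inf, hkf]
  have h2 : L e = L f ⊓ L g := by rw [he, map_inf]
  have h3 : (L e).1 p = (L g).1 p := by
    rw [h2, inf_apply]; exact min_eq_right hcon.le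
  have h4 : min ((L k).1 p) ((L f).1 p) = (L e).1 p := by
    rw [← h1, inf_apply]
  have h5 : (L k).1 p = (L e).1 p := by
    rcases le_total ((L k).1 p) ((L f).1 p) with h6 | h6
    · rwa [min_eq_left h6] at h4
    · rw [min_eq_right h6, h3] at h4
      exact absurd h4 hcon.ne'
  have h7 : k.1 p ≤ (L k).1 p := hL k p
  have h8 : k.1 p = e.1 p + s p := rfl
  linarith

/-- The dual statement for the inverse. -/
theorem claim1' (hR2 : ∀ x : K, ∃ r ∈ R, x ≤ r) (L : GS R I ≃o GS R I) (hL : ∀ f, f ≤ L f)
    (f g : GS R I) (p : I → K) (h : f.1 p < g.1 p) : (L.symm f).1 p ≤ (L.symm g).1 p := by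
  have hneg : ∀ a b : GS R I, -a ≤ -b ↔ b ≤ a := by
    intro a b
    constructor
    · intro h q
      have := h q
      change - a.1 q ≤ - b.1 q at this
      linarith
    · intro h q
      have := h q
      change - a.1 q ≤ - b.1 q
      linarith
  let M : GS R I ≃o GS R I :=
    { toFun := fun f => - L.symm (-f)
      invFun := fun f => - L (-f)
      left_inv := fun f => by simp
      right_inv := fun f => by simp
      map_rel_iff' := by
        intro a b
        change - L.symm (-a) ≤ - L.symm (-b) ↔ a ≤ b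
        rw [hneg, L.symm.le_iff_le, hneg] }
  have hM : ∀ f, f ≤ M f := by
    intro f
    change f ≤ - L.symm (-f)
    have h1 : L.symm (-f) ≤ -f := by
      have := hL (L.symm (-f))
      rwa [L.apply_symm_apply] at this
    have h2 := (hneg (-f) (L.symm (-f))).2 h1
    rwa [neg_neg] at h2
  have h3 := claim1 hR2 M hM (-g) (-f) p (by
    change - g.1 p < - f.1 p
    linarith)
  have h4 : (M (-g)).1 p = - (L.symm g).1 p := by
    change (- L.symm (- -g)).1 p = _
    rw [neg_neg]; rfl
  have h5 : (M (-f)).1 p = - (L.symm f).1 p := by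
    change (- L.symm (- -f)).1 p = _
    rw [neg_neg]; rfl
  rw [h4, h5] at h3
  linarith

theorem exists_supp (f : GS R I) : ∃ F : Finset I, ∀ p q : I → K, (∀ i ∈ F, q i = p i) →
    f.1 q = f.1 p := by
  obtain ⟨F, hF⟩ := f.2.cont
  refine ⟨F, fun p q h => ?_⟩
  by_contra hne
  have hpos : 0 < |f.1 q - f.1 p| := abs_pos.2 (sub_ne_zero.2 hne)
  obtain ⟨δ, h1, h2⟩ := hF p _ hpos
  exact absurd (h2 q (fun i hi => by rw [h i hi]; simpa using h1)) (lt_irrefl _)

/-- A finite set of coordinates on which `f` depends. -/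
noncomputable def supp (f : GS R I) : Finset I := (exists_supp f).choose

theorem supp_spec (f : GS R I) (p q : I → K) (h : ∀ i ∈ supp f, q i = p i) : f.1 q = f.1 p :=
  (exists_supp f).choose_spec p q h

theorem update_supp [DecidableEq I] (f : GS R I) (i : I) (hi : i ∉ supp f) (p : I → K) (u : K) :
    f.1 (update p i u) = f.1 p := by
  apply supp_spec
  intro j hj
  have : j ≠ i := fun h => hi (h ▸ hj)
  rw [update_of_ne this]

/-- The coordinate function. -/
def X (h1 : (1 : K) ∈ R) (i : I) : GS R I :=
  ⟨fun p => p i, by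
    have := InG.lin (R := R) (I := I) 1 h1 i
    change InG R I (fun p => p i)
    simpa using this⟩

/-- The constant function. -/
def C (c : K) : GS R I := ⟨fun _ => c, InG.const c⟩

/-- Point-locality. -/
theorem claim2 [Infinite I] (h1 : (1 : K) ∈ R) (L : GS R I ≃o GS R I)
    (hL : ∀ (f g : GS R I) (p : I → K), f.1 p < g.1 p → (L f).1 p ≤ (L g).1 p)
    (f g : GS R I) (p : I → K) (h : f.1 p = g.1 p) : (L f).1 p = (L g).1 p := by
  classical
  obtain ⟨j, hj⟩ := Infinite.exists_notMem_finset (supp f ∪ supp g)
  have hjf : j ∉ supp f := fun h => hj (by simp [h])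
  have hjg : j ∉ supp g := fun h => hj (by simp [h])
  set k : GS R I := f + (X h1 j + C (- p j)) with hk
  -- auxiliary: two functions agreeing at `p`, whose difference moves like `x_j` along `x_j`
  have aux : ∀ w : GS R I, w.1 p = f.1 p → j ∉ supp w → (L k).1 p = (L w).1 p := by
    intro w hw hjw
    have hkval : ∀ t : K, k.1 (update p j (p j + t)) = f.1 p + t := by
      intro t
      change f.1 (update p j (p j + t)) + (update p j (p j + t) j + - p j) = _
      rw [update_supp f j hjf, update_self]
      ring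
    have hwval : ∀ t : K, w.1 (update p j (p j + t)) = f.1 p := by
      intro t
      rw [update_supp w j hjw, hw]
    rcases lt_trichotomy ((L k).1 p) ((L w).1 p) with hlt | heq | hgt
    · exfalso
      obtain ⟨F, δ, hδ, hW⟩ := nbhd (L k) (L w) p hlt
      have hq := hW (update p j (p j + δ / 2)) (by
        intro i _
        by_cases hij : i = j
        · subst hij
          rw [update_self]
          have : p i + δ / 2 - p i = δ / 2 := by ring
          rw [this, abs_of_pos (by positivity)]
          linarith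
        · rw [update_of_ne hij]; simpa using hδ)
      have := hL w k (update p j (p j + δ / 2)) (by
        rw [hkval, hwval]; linarith)
      exact absurd this (not_le.2 hq)
    · exact heq
    · exfalso
      obtain ⟨F, δ, hδ, hW⟩ := nbhd (L w) (L k) p hgt
      have hq := hW (update p j (p j + -(δ / 2))) (by
        intro i _
        by_cases hij : i = j
        · subst hij
          rw [update_self]
          have : p i + -(δ / 2) - p i = -(δ / 2) := by ring
          rw [this, abs_neg, abs_of_pos (by positivity)]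
          linarith
        · rw [update_of_ne hij]; simpa using hδ)
      have := hL k w (update p j (p j + -(δ / 2))) (by
        rw [hkval, hwval]; linarith)
      exact absurd this (not_le.2 hq)
  rw [← aux f rfl hjf, aux g h.symm hjg]

theorem exists_pair [Uncountable I] (F : I → Finset I) (D : Finset I) :
    ∃ i j, i ≠ j ∧ i ∉ D ∧ j ∉ F i ∧ i ∉ F j := by
  classical
  have hinf : Infinite {x : I // x ∉ D} := by
    have : (D : Set I)ᶜ.Infinite := (Set.finite_coe_iff.1 (Finset.finite_toSet D)).infinite_compl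
    exact this.to_subtype
  let e : ℕ ↪ {x : I // x ∉ D} := Infinite.natEmbedding _
  set U : Set I := (Set.range fun n => (e n : I)) ∪ ⋃ n, (F (e n : I) : Set I) with hU
  have hUc : U.Countable := by
    apply Set.Countable.union
    · exact Set.countable_range _
    · exact Set.countable_iUnion (fun n => (Finset.finite_toSet _).countable)
  obtain ⟨j, hj⟩ : ∃ j, j ∉ U := by
    by_contra hcon
    push Not at hcon
    have : U = Set.univ := Set.eq_univ_of_forall hcon
    rw [this, Set.countable_univ_iff] at hUc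
    exact not_countable (α := I) hUc
  obtain ⟨n, hn⟩ : ∃ n, (e n : I) ∉ F j := by
    by_contra hcon
    push Not at hcon
    have hinj : Function.Injective (fun n => (e n : I)) :=
      fun a b hab => e.injective (Subtype.ext hab)
    have h1 : (Set.range fun n => (e n : I)).Infinite := Set.infinite_range_of_injective hinj
    exact h1 ((Finset.finite_toSet (F j)).subset (by
      rintro _ ⟨n, rfl⟩
      exact hcon n))
  refine ⟨e n, j, ?_, (e n).2, ?_, hn⟩
  · intro h
    exact hj (Or.inl ⟨n, h⟩)
  · intro h
    exact hj (Or.inr (Set.mem_iUnion.2 ⟨n, h⟩))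

/-- Every order automorphism above the identity is a translation. -/
theorem translation [Uncountable I] (hR1 : ∀ r ∈ R, r ≠ 0 → 1 ≤ |r|)
    (hR2 : ∀ x : K, ∃ r ∈ R, x ≤ r) (h1 : (1 : K) ∈ R)
    (L : GS R I ≃o GS R I) (hL : ∀ f, f ≤ L f) (f g : GS R I) (p : I → K) :
    (L f).1 p - f.1 p = (L g).1 p - g.1 p := by
  classical
  have c1 := claim1 hR2 L hL
  have c2 := claim2 h1 L c1
  have c2' := claim2 h1 L.symm (claim1' hR2 L hL)
  obtain ⟨i, j, hij, hiD, hji, hij'⟩ := exists_pair
    (fun i : I => supp (L (X h1 i)) ∪ supp (L.symm (X h1 i)))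
    (supp f ∪ supp g ∪ supp (L f) ∪ supp (L g))
  simp only [Finset.mem_union, not_or] at hiD hji hij'
  obtain ⟨⟨⟨hif, hig⟩, hiLf⟩, hiLg⟩ := hiD
  have hXi : ∀ q : I → K, (X h1 i : GS R I).1 q = q i := fun q => rfl
  have hXj : ∀ q : I → K, (X h1 j : GS R I).1 q = q j := fun q => rfl
  set P : K → K := fun u => (L (X h1 i)).1 (update p i u) with hPdef
  set Q : K → K := fun w => (L.symm (X h1 j)).1 (update p j w) with hQdef
  have hP : PWA R P := (L (X h1 i)).2.pwa p i
  have hQ : PWA R Q := (L.symm (X h1 j)).2.pwa p j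
  -- the point with prescribed i and j coordinates
  have hpi : ∀ u w : K, (update (update p i u) j w) i = u := by
    intro u w; rw [update_of_ne hij, update_self]
  have hpj : ∀ u w : K, (update (update p i u) j w) j = w := by
    intro u w; rw [update_self]
  have hPval : ∀ u w : K, (L (X h1 i)).1 (update (update p i u) j w) = P u := by
    intro u w; rw [update_supp _ j hji.1]
  have hQval : ∀ u w : K, (L.symm (X h1 j)).1 (update (update p i u) j w) = Q w := by
    intro u w
    rw [update_comm hij, update_supp _ i hij'.2]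
  have hQP : ∀ u, Q (P u) = u := by
    intro u
    have e1 : (L (X h1 i)).1 (update (update p i u) j (P u)) =
        (X h1 j : GS R I).1 (update (update p i u) j (P u)) := by
      rw [hPval, hXj, hpj]
    have e2 := c2' _ _ _ e1
    rw [L.symm_apply_apply, hXi, hpi, hQval] at e2
    exact e2.symm
  have hPQ : ∀ w, P (Q w) = w := by
    intro w
    have e1 : (L.symm (X h1 j)).1 (update (update p i (Q w)) j w) =
        (X h1 i : GS R I).1 (update (update p i (Q w)) j w) := by
      rw [hQval, hXi, hpi]
    have e2 := c2 _ _ _ e1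
    rw [L.apply_symm_apply, hXj, hpj, hPval] at e2
    exact e2.symm
  have hmono : ∀ u v, u ≤ v → P u ≤ P v := by
    intro u v huv
    rcases eq_or_lt_of_le huv with rfl | hlt
    · exact le_rfl
    have a1 := c1 (X h1 i) (X h1 j) (update (update p i u) j v) (by
      rw [hXi, hXj, hpi, hpj]; exact hlt)
    have a2 := c2 (X h1 i) (X h1 j) (update (update p i v) j v) (by
      rw [hXi, hXj, hpi, hpj])
    rw [hPval] at a1 a2
    have a3 : (L (X h1 j)).1 (update (update p i u) j v) =
        (L (X h1 j)).1 (update (update p i v) j v) := by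
      rw [update_comm hij, update_supp _ i hij'.1, update_comm hij, update_supp _ i hij'.1]
    rw [a3, ← a2] at a1
    exact a1
  have hslope := slope_one hR1 hP hQ hmono hQP hPQ
  have hval : ∀ w : GS R I, i ∉ supp w → i ∉ supp (L w) → P (w.1 p) = (L w).1 p := by
    intro w hw hLw
    have a1 := c2 (X h1 i) w (update p i (w.1 p)) (by
      rw [hXi, update_self, update_supp w i hw])
    rw [update_supp (L w) i hLw] at a1
    exact a1
  have hf := hval f hif hiLf
  have hg := hval g hig hiLg
  have := hslope (f.1 p) (g.1 p)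
  rw [hf, hg] at this
  linarith

/-- The unique addition theorem. -/
theorem unique_addition [Uncountable I] (hR1 : ∀ r ∈ R, r ≠ 0 → 1 ≤ |r|)
    (hR2 : ∀ x : K, ∃ r ∈ R, x ≤ r) (h1 : (1 : K) ∈ R)
    (op : GS R I → GS R I → GS R I)
    (hassoc : ∀ x y z, op (op x y) z = op x (op y z))
    (hid : ∀ x, op 0 x = x ∧ op x 0 = x)
    (hinv : ∀ x, ∃ y, op x y = 0 ∧ op y x = 0)
    (hmono : ∀ a b c, a ≤ b → op c a ≤ op c b ∧ op a c ≤ op b c) :
    ∀ x y, op x y = x + y := by
  -- left translation by a nonnegative element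
  have key : ∀ d : GS R I, 0 ≤ d → ∀ f, op d f = d + f := by
    intro d hd f
    obtain ⟨d', hd1, hd2⟩ := hinv d
    let L : GS R I ≃o GS R I :=
      { toFun := op d
        invFun := op d'
        left_inv := fun x => by rw [← hassoc, hd2, (hid x).1]
        right_inv := fun x => by rw [← hassoc, hd1, (hid x).1]
        map_rel_iff' := by
          intro a b
          constructor
          · intro h
            have := (hmono _ _ d' h).1
            change op d' (op d a) ≤ op d' (op d b) at this
            rwa [← hassoc, ← hassoc, hd2, (hid a).1, (hid b).1] at this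
          · intro h
            exact (hmono _ _ d h).1 }
    have hL : ∀ f, f ≤ L f := by
      intro f
      have := (hmono 0 d f hd).2
      rwa [(hid f).1] at this
    apply Subtype.ext
    funext p
    have := translation hR1 hR2 h1 L hL f 0 p
    change (op d f).1 p - f.1 p = (op d 0).1 p - (0 : GS R I).1 p at this
    rw [(hid d).2, zero_apply] at this
    rw [add_apply]
    linarith
  intro x y
  obtain ⟨x', hx1, hx2⟩ := hinv x
  set c : GS R I := x' ⊔ 0 with hc
  have hc0 : (0 : GS R I) ≤ c := le_sup_right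
  have hcx : (0 : GS R I) ≤ op c x := by
    have : op x' x ≤ op c x := (hmono _ _ x le_sup_left).2
    rwa [hx2] at this
  have e1 : op (op c x) y = op c (op x y) := hassoc _ _ _
  rw [key _ hcx y, key c hc0 x, key c hc0 (op x y), add_assoc] at e1
  exact (add_left_cancel e1).symm

end Pool.Agent.H89.UniqueAdd
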